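import Mathlib

/-!
# Bounded differences on finite product spaces
-/

set_option autoImplicit false

namespace Pool.Agent.Lib.DHC

open Finset

section bd

variable {I R : Type*} [Fintype I] [DecidableEq I] [Fintype R]

/-- The expectation of `g` when the coordinates are independent with weights `w i`. -/
noncomputable def Ex (w : I → R → ℝ) (g : (I → R) → ℝ) : ℝ :=
  ∑ ω, (∏ i, w i (ω i)) * g ω

/-- The average over the coordinate `a`. -/
noncomputable def Av (w : I → R → ℝ) (a : I) (g : (I → R) → ℝ) : (I → R) → ℝ :=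
  fun ω => ∑ r, w a r * g (Function.update ω a r)

/-- Exchange the coordinate `a` with an additional variable. -/
private def swp (a : I) : ((I → R) × R) ≃ ((I → R) × R) where
  toFun p := (Function.update p.1 a p.2, p.1 a)
  invFun p := (Function.update p.1 a p.2, p.1 a)
  left_inv := by rintro ⟨ω, r⟩; simp
  right_inv := by rintro ⟨ω, r⟩; simp

theorem Ex_one (w : I → R → ℝ) (hw1 : ∀ i, ∑ r, w i r = 1) : Ex w (fun _ => 1) = 1 := by
  classical
  unfold Ex
  simp only [mul_one]
  have := (Finset.prod_univ_sum (fun _ : I => (Finset.univ : Finset R)) (fun i r => w i r)).symm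
  simp only [Fintype.piFinset_univ] at this
  rw [this]
  simp [hw1]

theorem Ex_Av (w : I → R → ℝ) (hw1 : ∀ i, ∑ r, w i r = 1) (a : I) (g : (I → R) → ℝ) :
    Ex w (Av w a g) = Ex w g := by
  unfold Ex Av
  have h1 : ∑ ω : I → R, (∏ i, w i (ω i)) * ∑ r, w a r * g (Function.update ω a r) =
      ∑ p : (I → R) × R, (∏ i, w i (p.1 i)) * (w a p.2 * g (Function.update p.1 a p.2)) := by
    rw [Fintype.sum_prod_type]
    exact Finset.sum_congr rfl fun ω _ => by rw [Finset.mul_sum]
  rw [h1, ← (swp (R := R) a).sum_comp]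
  have h2 : ∀ p : (I → R) × R,
      (∏ i, w i (((swp a) p).1 i)) * (w a ((swp a) p).2 *
        g (Function.update ((swp a) p).1 a ((swp a) p).2)) =
      (∏ i, w i (p.1 i)) * (w a p.2 * g p.1) := by
    rintro ⟨ω, r⟩
    have e1 : ((swp a) (ω, r)).1 = Function.update ω a r := rfl
    have e2 : ((swp a) (ω, r)).2 = ω a := rfl
    rw [e1, e2]
    simp only [Function.update_idem, Function.update_eq_self]
    rw [← Finset.mul_prod_erase univ (fun i => w i (Function.update ω a r i)) (Finset.mem_univ a),
      ← Finset.mul_prod_erase univ (fun i => w i (ω i)) (Finset.mem_univ a)]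
    have e3 : ∏ x ∈ univ.erase a, w x (Function.update ω a r x) =
        ∏ x ∈ univ.erase a, w x (ω x) :=
      Finset.prod_congr rfl fun x hx => by
        rw [Function.update_of_ne (Finset.ne_of_mem_erase hx)]
    rw [e3]
    simp only [Function.update_self]
    ring
  rw [Finset.sum_congr rfl fun p _ => h2 p, Fintype.sum_prod_type]
  apply Finset.sum_congr rfl
  intro ω _
  simp only
  rw [← Finset.mul_sum, ← Finset.sum_mul, hw1 a, one_mul]

private theorem exp_le_aux (y : ℝ) : Real.exp y ≤ y + Real.exp (y ^ 2) := by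
  have hmain : ∀ y : ℝ, Real.exp y ≤ y + Real.exp (y ^ 2) := by
    intro y
    rcases le_or_gt 1 |y| with h | h
    · rcases le_total 0 y with h0 | h0
      · rw [abs_of_nonneg h0] at h
        have : Real.exp y ≤ Real.exp (y ^ 2) := Real.exp_le_exp.2 (by nlinarith)
        linarith
      · rw [abs_of_nonpos h0] at h
        have h1 : Real.exp y ≤ 1 := by
          have := Real.exp_le_exp.2 h0
          rwa [Real.exp_zero] at this
        have h2 : y ^ 2 + 1 ≤ Real.exp (y ^ 2) := Real.add_one_le_exp _
        nlinarith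
    · have h2 : y ^ 2 + 1 ≤ Real.exp (y ^ 2) := Real.add_one_le_exp _
      have h3 := Real.abs_exp_sub_one_sub_id_le (x := y) h.le
      have h4 := (abs_le.1 h3).2
      linarith
  exact hmain y

private theorem one_step [Nonempty R] (w : R → ℝ) (hw0 : ∀ r, 0 ≤ w r) (hw1 : ∑ r, w r = 1)
    (y : R → ℝ) (hy : ∑ r, w r * y r = 0) (c : ℝ) (hc : ∀ r, |y r| ≤ c) :
    ∑ r, w r * Real.exp (y r) ≤ Real.exp (c ^ 2) := by
  have h1 : ∀ r, w r * Real.exp (y r) ≤ w r * y r + w r * Real.exp (c ^ 2) := by
    intro r
    have h2 : Real.exp (y r) ≤ y r + Real.exp (c ^ 2) := by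
      refine (exp_le_aux _).trans ?_
      have : (y r) ^ 2 ≤ c ^ 2 := sq_le_sq' (by linarith [(abs_le.1 (hc r)).1])
        (abs_le.1 (hc r)).2
      linarith [Real.exp_le_exp.2 this]
    nlinarith [hw0 r]
  calc ∑ r, w r * Real.exp (y r) ≤ ∑ r, (w r * y r + w r * Real.exp (c ^ 2)) :=
        Finset.sum_le_sum fun r _ => h1 r
    _ = Real.exp (c ^ 2) := by
        rw [Finset.sum_add_distrib, hy, ← Finset.sum_mul, hw1]; ring

private theorem Ex_mono (w : I → R → ℝ) (hw0 : ∀ i r, 0 ≤ w i r) (g h : (I → R) → ℝ)
    (hgh : ∀ ω, g ω ≤ h ω) : Ex w g ≤ Ex w h :=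
  Finset.sum_le_sum fun ω _ =>
    mul_le_mul_of_nonneg_left (hgh ω) (Finset.prod_nonneg fun i _ => hw0 i _)

private theorem Ex_mul_left (w : I → R → ℝ) (g : (I → R) → ℝ) (x : ℝ) :
    Ex w (fun ω => x * g ω) = x * Ex w g := by
  unfold Ex
  rw [Finset.mul_sum]
  exact Finset.sum_congr rfl fun ω _ => by ring

private theorem Ex_add (w : I → R → ℝ) (g h : (I → R) → ℝ) :
    Ex w (fun ω => g ω + h ω) = Ex w g + Ex w h := by
  unfold Ex
  rw [← Finset.sum_add_distrib]
  exact Finset.sum_congr rfl fun ω _ => by ring

/-- The exponential moments of a function with bounded differences. -/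
theorem mgf [Nonempty R] (w : I → R → ℝ) (hw0 : ∀ i r, 0 ≤ w i r) (hw1 : ∀ i, ∑ r, w i r = 1)
    (c : I → ℝ) (lam : ℝ) (s : Finset I) :
    ∀ f : (I → R) → ℝ, (∀ ω ω', (∀ i ∈ s, ω i = ω' i) → f ω = f ω') →
      (∀ i ω ω', (∀ j, j ≠ i → ω j = ω' j) → |f ω - f ω'| ≤ c i) →
      Ex w (fun ω => Real.exp (lam * (f ω - Ex w f))) ≤
        Real.exp (lam ^ 2 * ∑ i ∈ s, (c i) ^ 2) := by
  induction s using Finset.induction_on with
  | empty =>
    intro f hf _
    obtain ⟨r0⟩ := ‹Nonempty R›
    have h1 : ∀ ω, f ω = f (fun _ => r0) := fun ω => hf ω _ (by simp)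
    have h2 : Ex w f = f (fun _ => r0) := by
      have : f = fun ω => f (fun _ => r0) * 1 := by
        funext ω; rw [mul_one]; exact h1 ω
      rw [this, Ex_mul_left w (fun _ => 1) _, Ex_one w hw1]
    have h3 : (fun ω => Real.exp (lam * (f ω - Ex w f))) = fun _ => (1 : ℝ) := by
      funext ω
      rw [h2, h1 ω]; simp
    rw [h3, Ex_one w hw1]
    simp
  | insert a s ha ih =>
    intro f hf hc
    set g := Av w a f with hg
    have hEg : Ex w g = Ex w f := Ex_Av w hw1 a f
    have hgdep : ∀ ω ω', (∀ i ∈ s, ω i = ω' i) → g ω = g ω' := by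
      intro ω ω' h
      simp only [hg, Av]
      apply Finset.sum_congr rfl
      intro r _
      congr 1
      apply hf
      intro i hi
      by_cases hia : i = a
      · subst hia; simp
      · rw [Function.update_of_ne hia, Function.update_of_ne hia]
        exact h i ((Finset.mem_insert.1 hi).resolve_left hia)
    have hgc : ∀ i ω ω', (∀ j, j ≠ i → ω j = ω' j) → |g ω - g ω'| ≤ c i := by
      intro i ω ω' h
      simp only [hg, Av]
      rw [← Finset.sum_sub_distrib]
      have h1 : ∀ r, |w a r * f (Function.update ω a r) - w a r * f (Function.update ω' a r)| ≤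
          w a r * c i := by
        intro r
        rw [← mul_sub, abs_mul, abs_of_nonneg (hw0 a r)]
        apply mul_le_mul_of_nonneg_left _ (hw0 a r)
        apply hc i
        intro j hj
        by_cases hja : j = a
        · subst hja; simp
        · rw [Function.update_of_ne hja, Function.update_of_ne hja]; exact h j hj
      calc |∑ r, (w a r * f (Function.update ω a r) - w a r * f (Function.update ω' a r))| ≤
            ∑ r, w a r * c i :=
            (Finset.abs_sum_le_sum_abs _ _).trans (Finset.sum_le_sum fun r _ => h1 r)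
        _ = c i := by rw [← Finset.sum_mul, hw1, one_mul]
    have hih := ih g hgdep hgc
    -- average over `a` first
    have h1 : Ex w (fun ω => Real.exp (lam * (f ω - Ex w f))) =
        Ex w (Av w a (fun ω => Real.exp (lam * (f ω - Ex w f)))) := (Ex_Av w hw1 a _).symm
    rw [h1]
    have h2 : ∀ ω, Av w a (fun ω => Real.exp (lam * (f ω - Ex w f))) ω ≤
        Real.exp (lam ^ 2 * (c a) ^ 2) * Real.exp (lam * (g ω - Ex w g)) := by
      intro ω
      simp only [Av]
      have e1 : ∀ r, w a r * Real.exp (lam * (f (Function.update ω a r) - Ex w f)) =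
          (w a r * Real.exp (lam * (f (Function.update ω a r) - g ω))) *
            Real.exp (lam * (g ω - Ex w g)) := by
        intro r
        rw [mul_assoc, ← Real.exp_add, hEg]
        congr 2
        ring
      rw [Finset.sum_congr rfl fun r _ => e1 r, ← Finset.sum_mul]
      apply mul_le_mul_of_nonneg_right _ (Real.exp_pos _).le
      have hgω : g ω = ∑ r, w a r * f (Function.update ω a r) := rfl
      have hk := one_step (w a) (hw0 a) (hw1 a)
        (fun r => lam * (f (Function.update ω a r) - g ω)) (by
          have : ∀ r, w a r * (lam * (f (Function.update ω a r) - g ω)) =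
              lam * (w a r * f (Function.update ω a r)) - lam * g ω * w a r := fun r => by ring
          rw [Finset.sum_congr rfl fun r _ => this r, Finset.sum_sub_distrib, ← Finset.mul_sum,
            ← Finset.mul_sum, hw1 a, ← hgω]
          ring) (|lam| * c a) (by
          intro r
          rw [abs_mul]
          apply mul_le_mul_of_nonneg_left _ (abs_nonneg _)
          have e3 : f (Function.update ω a r) - g ω =
              ∑ r', w a r' * (f (Function.update ω a r) - f (Function.update ω a r')) := by
            rw [hgω]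
            simp only [mul_sub]
            rw [Finset.sum_sub_distrib, ← Finset.sum_mul, hw1 a, one_mul]
          rw [e3]
          calc |∑ r', w a r' * (f (Function.update ω a r) - f (Function.update ω a r'))| ≤
                ∑ r', w a r' * c a := by
                refine (Finset.abs_sum_le_sum_abs _ _).trans (Finset.sum_le_sum fun r' _ => ?_)
                rw [abs_mul, abs_of_nonneg (hw0 a r')]
                apply mul_le_mul_of_nonneg_left _ (hw0 a r')
                apply hc a
                intro j hj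
                rw [Function.update_of_ne hj, Function.update_of_ne hj]
            _ = c a := by rw [← Finset.sum_mul, hw1, one_mul])
      refine hk.trans (le_of_eq ?_)
      rw [mul_pow, sq_abs]
    refine (Ex_mono w hw0 _ _ h2).trans ?_
    rw [Ex_mul_left, Finset.sum_insert ha, mul_add, Real.exp_add]
    exact mul_le_mul_of_nonneg_left hih (Real.exp_pos _).le

/-- Upper tail. -/
private theorem tail [Nonempty R] (w : I → R → ℝ) (hw0 : ∀ i r, 0 ≤ w i r)
    (hw1 : ∀ i, ∑ r, w i r = 1) (f : (I → R) → ℝ) (c : I → ℝ)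
    (hc : ∀ i ω ω', (∀ j, j ≠ i → ω j = ω' j) → |f ω - f ω'| ≤ c i)
    (S t : ℝ) (hS0 : 0 < S) (hS : ∑ i, (c i) ^ 2 ≤ S) (ht : 0 ≤ t) :
    Ex w (fun ω => if t ≤ f ω - Ex w f then 1 else 0) ≤ Real.exp (-t ^ 2 / (4 * S)) := by
  have h1 := mgf w hw0 hw1 c (t / (2 * S)) univ f (fun ω ω' h => by
    congr 1; funext i; exact h i (Finset.mem_univ i)) hc
  have h2 : ∀ ω, (if t ≤ f ω - Ex w f then (1 : ℝ) else 0) ≤
      Real.exp (-(t / (2 * S)) * t) * Real.exp (t / (2 * S) * (f ω - Ex w f)) := by
    intro ω
    rw [← Real.exp_add]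
    split_ifs with h
    · apply Real.one_le_exp
      have : 0 ≤ t / (2 * S) := by positivity
      nlinarith
    · exact (Real.exp_pos _).le
  calc Ex w (fun ω => if t ≤ f ω - Ex w f then 1 else 0) ≤
        Ex w (fun ω => Real.exp (-(t / (2 * S)) * t) *
          Real.exp (t / (2 * S) * (f ω - Ex w f))) := Ex_mono w hw0 _ _ h2
    _ = Real.exp (-(t / (2 * S)) * t) *
          Ex w (fun ω => Real.exp (t / (2 * S) * (f ω - Ex w f))) := Ex_mul_left _ _ _
    _ ≤ Real.exp (-(t / (2 * S)) * t) * Real.exp ((t / (2 * S)) ^ 2 * S) := by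
        apply mul_le_mul_of_nonneg_left _ (Real.exp_pos _).le
        refine h1.trans (Real.exp_le_exp.2 ?_)
        exact mul_le_mul_of_nonneg_left hS (sq_nonneg _)
    _ = Real.exp (-t ^ 2 / (4 * S)) := by
        rw [← Real.exp_add]
        congr 1
        field_simp
        ring

/-- Bounded differences and the union bound: finitely many functions are simultaneously close to
their expectations at a point of positive weight. -/
theorem bounded_differences {κ : Type*} [Fintype κ] (w : I → R → ℝ) (hw0 : ∀ i r, 0 ≤ w i r)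
    (hw1 : ∀ i, ∑ r, w i r = 1) (f : κ → (I → R) → ℝ) (c : κ → I → ℝ)
    (hc : ∀ k i ω ω', (∀ j, j ≠ i → ω j = ω' j) → |f k ω - f k ω'| ≤ c k i)
    (S t : ℝ) (hS0 : 0 < S) (hS : ∀ k, ∑ i, (c k i) ^ 2 ≤ S) (ht : 0 ≤ t)
    (hcard : (Fintype.card κ : ℝ) * Real.exp (-t ^ 2 / (4 * S)) < 1 / 2) :
    ∃ ω : I → R, (∀ i, 0 < w i (ω i)) ∧ ∀ k, |f k ω - Ex w (f k)| < t := by
  classical
  rcases isEmpty_or_nonempty I with hI | hI
  · -- no coordinates: all functions are constant
    let ω0 : I → R := fun i => (hI.false i).elim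
    refine ⟨ω0, fun i => (hI.false i).elim, fun k => ?_⟩
    have h1 : Ex w (f k) = f k ω0 := by
      unfold Ex
      rw [Fintype.sum_eq_single ω0 (fun x hx => absurd (Subsingleton.elim x ω0) hx)]
      simp
    rw [h1, sub_self, abs_zero]
    rcases ht.lt_or_eq with h | h
    · exact h
    · exfalso
      rw [← h] at hcard
      have hk : (1 : ℝ) ≤ Fintype.card κ := by
        have : 0 < Fintype.card κ := Fintype.card_pos_iff.2 ⟨k⟩
        exact_mod_cast this
      simp at hcard
      linarith
  · have hR : Nonempty R := by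
      obtain ⟨i⟩ := hI
      by_contra hne
      rw [not_nonempty_iff] at hne
      have := hw1 i
      simp at this
    -- the bad events
    let bad : κ → (I → R) → ℝ := fun k ω =>
      (if t ≤ f k ω - Ex w (f k) then 1 else 0) + (if t ≤ -(f k ω - Ex w (f k)) then 1 else 0)
    have hbad : ∀ k, Ex w (bad k) ≤ 2 * Real.exp (-t ^ 2 / (4 * S)) := by
      intro k
      have h1 := tail w hw0 hw1 (f k) (c k) (hc k) S t hS0 (hS k) ht
      have h2 := tail w hw0 hw1 (fun ω => -(f k ω)) (c k) (fun i ω ω' h => by
        have := hc k i ω ω' h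
        rwa [show -(f k ω) - -(f k ω') = -(f k ω - f k ω') by ring, abs_neg]) S t hS0 (hS k) ht
      have h3 : Ex w (fun ω => -(f k ω)) = -Ex w (f k) := by
        have := Ex_mul_left w (f k) (-1)
        simpa using this
      rw [h3] at h2
      have h4 : Ex w (bad k) = Ex w (fun ω => if t ≤ f k ω - Ex w (f k) then 1 else 0) +
          Ex w (fun ω => if t ≤ -(f k ω) - -Ex w (f k) then 1 else 0) := by
        rw [← Ex_add]
        congr 1
        funext ω
        simp only [bad]
        rw [show -(f k ω - Ex w (f k)) = -(f k ω) - -Ex w (f k) by ring]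
      rw [h4]
      linarith
    have htot : Ex w (fun ω => ∑ k, bad k ω) < 1 := by
      have h1 : Ex w (fun ω => ∑ k, bad k ω) = ∑ k, Ex w (bad k) := by
        unfold Ex
        rw [Finset.sum_comm]
        exact Finset.sum_congr rfl fun ω _ => by rw [Finset.mul_sum]
      rw [h1]
      calc ∑ k, Ex w (bad k) ≤ ∑ _k : κ, 2 * Real.exp (-t ^ 2 / (4 * S)) :=
            Finset.sum_le_sum fun k _ => hbad k
        _ = 2 * ((Fintype.card κ : ℝ) * Real.exp (-t ^ 2 / (4 * S))) := by
            rw [Finset.sum_const, Finset.card_univ, nsmul_eq_mul]; ring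
        _ < 1 := by linarith
    -- a good point of positive weight
    have hex : ∃ ω, 0 < ∏ i, w i (ω i) ∧ ∑ k, bad k ω < 1 := by
      by_contra hne
      push Not at hne
      have : Ex w (fun _ => 1) ≤ Ex w (fun ω => ∑ k, bad k ω) := by
        unfold Ex
        apply Finset.sum_le_sum
        intro ω _
        rcases (Finset.prod_nonneg fun i _ => hw0 i (ω i) :
          0 ≤ ∏ i, w i (ω i)).lt_or_eq with h | h
        · exact mul_le_mul_of_nonneg_left (hne ω h) h.le
        · rw [← h]; simp
      rw [Ex_one w hw1] at this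
      linarith
    obtain ⟨ω, hω, hb⟩ := hex
    refine ⟨ω, ?_, ?_⟩
    · intro i
      rcases (hw0 i (ω i)).lt_or_eq with h | h
      · exact h
      · exfalso
        rw [Finset.prod_eq_zero (Finset.mem_univ i) h.symm] at hω
        exact lt_irrefl _ hω
    · intro k
      by_contra hne
      rw [not_lt] at hne
      have hnn : ∀ k', 0 ≤ bad k' ω := fun k' => by
        simp only [bad]
        split_ifs <;> norm_num
      have h1 : 1 ≤ bad k ω := by
        simp only [bad]
        rcases le_abs.1 hne with h | h
        · rw [if_pos h]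
          split_ifs <;> norm_num
        · rw [if_pos h]
          split_ifs <;> norm_num
      have h2 : bad k ω ≤ ∑ k, bad k ω :=
        Finset.single_le_sum (fun k' _ => hnn k') (Finset.mem_univ k)
      linarith

end bd

end Pool.Agent.Lib.DHC
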