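import Mathlib

/-!
# Fractional factors with prescribed bounds (quadratic minimisation)
-/

set_option autoImplicit false

namespace Pool.Agent.Lib.DHC

open Finset

section weights

variable {V : Type*} [Fintype V] [DecidableEq V]

/-- The function to be minimised. -/
private noncomputable def Phi (D : ℝ) (f : V → V → ℝ) : ℝ :=
  ∑ u, ((∑ v, f u v) - D) ^ 2 + ∑ v, ((∑ u, f u v) - D) ^ 2

/-- `f` with `e` added at the place `(a, b)`. -/
private noncomputable def bump (f : V → V → ℝ) (a b : V) (e : ℝ) : V → V → ℝ :=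
  fun u v => f u v + if u = a ∧ v = b then e else 0

private theorem bump_row (f : V → V → ℝ) (a b : V) (e : ℝ) (u : V) :
    ∑ v, bump f a b e u v = (∑ v, f u v) + if u = a then e else 0 := by
  unfold bump
  rw [Finset.sum_add_distrib]
  congr 1
  by_cases h : u = a
  · simp [h]
  · simp [h]

private theorem bump_col (f : V → V → ℝ) (a b : V) (e : ℝ) (v : V) :
    ∑ u, bump f a b e u v = (∑ u, f u v) + if v = b then e else 0 := by
  unfold bump
  rw [Finset.sum_add_distrib]
  congr 1
  by_cases h : v = b
  · simp [h]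
  · simp [h]

private theorem Phi_bump (D : ℝ) (f : V → V → ℝ) (a b : V) (e : ℝ) :
    Phi D (bump f a b e) = Phi D f + 2 * e * (((∑ v, f a v) - D) + ((∑ u, f u b) - D)) +
      2 * e ^ 2 := by
  unfold Phi
  simp only [bump_row, bump_col]
  have h1 : ∑ u, ((∑ v, f u v) + (if u = a then e else 0) - D) ^ 2 =
      ∑ u, ((∑ v, f u v) - D) ^ 2 + (2 * e * ((∑ v, f a v) - D) + e ^ 2) := by
    have : ∀ u, ((∑ v, f u v) + (if u = a then e else 0) - D) ^ 2 =
        ((∑ v, f u v) - D) ^ 2 + if u = a then (2 * e * ((∑ v, f a v) - D) + e ^ 2) else 0 := by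
      intro u
      by_cases h : u = a
      · subst h; simp; ring
      · simp [h]
    simp only [this]
    rw [Finset.sum_add_distrib]
    simp
  have h2 : ∑ v, ((∑ u, f u v) + (if v = b then e else 0) - D) ^ 2 =
      ∑ v, ((∑ u, f u v) - D) ^ 2 + (2 * e * ((∑ u, f u b) - D) + e ^ 2) := by
    have : ∀ v, ((∑ u, f u v) + (if v = b then e else 0) - D) ^ 2 =
        ((∑ u, f u v) - D) ^ 2 + if v = b then (2 * e * ((∑ u, f u b) - D) + e ^ 2) else 0 := by
      intro v
      by_cases h : v = b
      · subst h; simp; ring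
      · simp [h]
    simp only [this]
    rw [Finset.sum_add_distrib]
    simp
  rw [h1, h2]
  ring

private theorem sum_ind (f : V → V → ℝ) (S T : Finset V) :
    ∑ u ∈ S, ∑ v, f u v - ∑ v ∈ T, ∑ u, f u v =
      ∑ p ∈ (univ : Finset (V × V)).filter (fun p => p.1 ∈ S ∧ p.2 ∉ T), f p.1 p.2 -
      ∑ p ∈ (univ : Finset (V × V)).filter (fun p => p.1 ∉ S ∧ p.2 ∈ T), f p.1 p.2 := by
  have h1 : ∑ u ∈ S, ∑ v, f u v = ∑ p : V × V, if p.1 ∈ S then f p.1 p.2 else 0 := by
    rw [Fintype.sum_prod_type]
    rw [← Finset.sum_filter_add_sum_filter_not univ (fun u => u ∈ S)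
      (fun x => ∑ y, if (x, y).1 ∈ S then f (x, y).1 (x, y).2 else 0)]
    have e1 : (univ.filter fun u => u ∈ S) = S := by ext; simp
    rw [e1]
    have e2 : ∑ x ∈ univ.filter (fun x => ¬ x ∈ S),
        (∑ y, if (x, y).1 ∈ S then f (x, y).1 (x, y).2 else 0) = 0 := by
      apply Finset.sum_eq_zero
      intro x hx
      have : x ∉ S := by simpa using hx
      simp [this]
    rw [e2, add_zero]
    apply Finset.sum_congr rfl
    intro x hx
    simp [hx]
  have h2 : ∑ v ∈ T, ∑ u, f u v = ∑ p : V × V, if p.2 ∈ T then f p.1 p.2 else 0 := by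
    rw [Fintype.sum_prod_type_right]
    rw [← Finset.sum_filter_add_sum_filter_not univ (fun u => u ∈ T)
      (fun y => ∑ x, if (x, y).2 ∈ T then f (x, y).1 (x, y).2 else 0)]
    have e1 : (univ.filter fun u => u ∈ T) = T := by ext; simp
    rw [e1]
    have e2 : ∑ y ∈ univ.filter (fun x => ¬ x ∈ T),
        (∑ x, if (x, y).2 ∈ T then f (x, y).1 (x, y).2 else 0) = 0 := by
      apply Finset.sum_eq_zero
      intro x hx
      have : x ∉ T := by simpa using hx
      simp [this]
    rw [e2, add_zero]
    apply Finset.sum_congr rfl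
    intro x hx
    simp [hx]
  rw [h1, h2, ← Finset.sum_sub_distrib, Finset.sum_filter, Finset.sum_filter,
    ← Finset.sum_sub_distrib]
  apply Finset.sum_congr rfl
  rintro ⟨u, v⟩ -
  by_cases hu : u ∈ S <;> by_cases hv : v ∈ T <;> simp [hu, hv]

/-- If `D (|S| - |T|) <= e(S, T^c) - l e(S^c, T)` for all sets `S`, `T` of vertices then the edges
have symmetric weights in `[l, 1]` whose sum at each vertex is `D`. -/
theorem weights (A : V → V → Prop) [DecidableRel A] (hA : ∀ u v, A u v → A v u) (l D : ℝ)
    (hl1 : l ≤ 1)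
    (h : ∀ S T : Finset V, D * ((S.card : ℝ) - T.card) ≤
      (((univ : Finset (V × V)).filter fun p => p.1 ∈ S ∧ p.2 ∉ T ∧ A p.1 p.2).card : ℝ) -
        l * ((univ : Finset (V × V)).filter fun p => p.1 ∉ S ∧ p.2 ∈ T ∧ A p.1 p.2).card) :
    ∃ y : V → V → ℝ, (∀ u v, y u v = y v u) ∧ (∀ u v, A u v → l ≤ y u v ∧ y u v ≤ 1) ∧
      (∀ u v, ¬ A u v → y u v = 0) ∧ ∀ v, ∑ u, y v u = D := by
  classical
  -- the compact set
  let K : Set (V → V → ℝ) := {f | ∀ u v, f u v ∈ Set.Icc (if A u v then l else 0)
    (if A u v then 1 else 0)}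
  have hK : IsCompact K := by
    have : K = Set.pi Set.univ fun u => Set.pi Set.univ fun v =>
        Set.Icc (if A u v then l else 0) (if A u v then (1 : ℝ) else 0) := by
      ext f
      exact ⟨fun h u _ v _ => h u v, fun h u v => h u trivial v trivial⟩
    rw [this]
    exact isCompact_univ_pi fun u => isCompact_univ_pi fun v => isCompact_Icc
  have hKne : K.Nonempty := ⟨fun u v => if A u v then 1 else 0, by
    intro u v
    by_cases hh : A u v
    · simp [hh, hl1]
    · simp [hh]⟩
  have hcont : Continuous (Phi (V := V) D) := by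
    unfold Phi
    fun_prop
  obtain ⟨f, hfK, hf⟩ := hK.exists_isMinOn hKne hcont.continuousOn
  have hmin : ∀ g ∈ K, Phi D f ≤ Phi D g := fun g hg => hf hg
  set R : V → ℝ := fun u => ∑ v, f u v with hR
  set C : V → ℝ := fun v => ∑ u, f u v with hC
  -- first order conditions
  have hup : ∀ u v, A u v → (R u - D) + (C v - D) < 0 → f u v = 1 := by
    intro u v huv hneg
    by_contra hne
    have hb := hfK u v
    simp only [huv, if_true] at hb
    have hlt : f u v < 1 := lt_of_le_of_ne hb.2 hne
    set c := (R u - D) + (C v - D) with hc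
    set e : ℝ := min (1 - f u v) (-c / 2) with he
    have he0 : 0 < e := lt_min (by linarith) (by linarith)
    have hbK : bump f u v e ∈ K := by
      intro x y
      unfold bump
      by_cases hxy : x = u ∧ y = v
      · obtain ⟨rfl, rfl⟩ := hxy
        simp only [huv, if_true, and_self]
        refine ⟨by linarith [hb.1], ?_⟩
        have := min_le_left (1 - f x y) (-c / 2)
        linarith
      · simp only [hxy, if_false, add_zero]
        exact hfK x y
    have h1 := hmin _ hbK
    rw [Phi_bump] at h1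
    have h2 : e ≤ -c / 2 := min_le_right _ _
    have : (∑ v', f u v') - D + ((∑ u', f u' v) - D) = c := rfl
    rw [this] at h1
    nlinarith
  have hdn : ∀ u v, A u v → 0 < (R u - D) + (C v - D) → f u v = l := by
    intro u v huv hpos
    by_contra hne
    have hb := hfK u v
    simp only [huv, if_true] at hb
    have hlt : l < f u v := lt_of_le_of_ne hb.1 (Ne.symm hne)
    set c := (R u - D) + (C v - D) with hc
    set e : ℝ := min (f u v - l) (c / 2) with he
    have he0 : 0 < e := lt_min (by linarith) (by linarith)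
    have hbK : bump f u v (-e) ∈ K := by
      intro x y
      unfold bump
      by_cases hxy : x = u ∧ y = v
      · obtain ⟨rfl, rfl⟩ := hxy
        simp only [huv, if_true, and_self]
        have := min_le_left (f x y - l) (c / 2)
        exact ⟨by linarith, by linarith [hb.2]⟩
      · simp only [hxy, if_false, add_zero]
        exact hfK x y
    have h1 := hmin _ hbK
    rw [Phi_bump] at h1
    have h2 : e ≤ c / 2 := min_le_right _ _
    have : (∑ v', f u v') - D + ((∑ u', f u' v) - D) = c := rfl
    rw [this] at h1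
    nlinarith
  have hoff : ∀ u v, ¬ A u v → f u v = 0 := by
    intro u v huv
    have hb := hfK u v
    simp only [huv, if_false] at hb
    exact le_antisymm hb.2 hb.1
  -- the two sets
  set S : Finset V := univ.filter fun u => R u < D with hS
  set T : Finset V := univ.filter fun v => D < C v with hT
  have hSmem : ∀ u, u ∈ S ↔ R u < D := by intro u; simp [hS]
  have hTmem : ∀ v, v ∈ T ↔ D < C v := by intro v; simp [hT]
  have key := sum_ind f S T
  have k1 : ∑ p ∈ (univ : Finset (V × V)).filter (fun p => p.1 ∈ S ∧ p.2 ∉ T), f p.1 p.2 =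
      (((univ : Finset (V × V)).filter fun p => p.1 ∈ S ∧ p.2 ∉ T ∧ A p.1 p.2).card : ℝ) := by
    rw [Finset.card_eq_sum_ones, Nat.cast_sum, Finset.sum_filter, Finset.sum_filter]
    apply Finset.sum_congr rfl
    rintro ⟨u, v⟩ -
    by_cases hu : u ∈ S
    · by_cases hv : v ∈ T
      · simp [hu, hv]
      · by_cases huv : A u v
        · have : f u v = 1 := hup u v huv (by
            have a1 := (hSmem u).1 hu
            have a2 : C v ≤ D := not_lt.1 (fun hh => hv ((hTmem v).2 hh))
            linarith)
          simp [hu, hv, huv, this]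
        · simp [hu, hv, huv, hoff u v huv]
    · simp [hu]
  have k2 : ∑ p ∈ (univ : Finset (V × V)).filter (fun p => p.1 ∉ S ∧ p.2 ∈ T), f p.1 p.2 =
      l * (((univ : Finset (V × V)).filter fun p => p.1 ∉ S ∧ p.2 ∈ T ∧ A p.1 p.2).card : ℝ) := by
    rw [Finset.card_eq_sum_ones, Nat.cast_sum, Finset.sum_filter, Finset.sum_filter,
      Finset.mul_sum]
    apply Finset.sum_congr rfl
    rintro ⟨u, v⟩ -
    by_cases hu : u ∈ S
    · simp [hu]
    · by_cases hv : v ∈ T
      · by_cases huv : A u v
        · have : f u v = l := hdn u v huv (by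
            have a1 : D ≤ R u := not_lt.1 (fun hh => hu ((hSmem u).2 hh))
            have a2 := (hTmem v).1 hv
            linarith)
          simp [hu, hv, huv, this]
        · simp [hu, hv, huv, hoff u v huv]
      · simp [hu, hv]
  have hst := h S T
  rw [k1, k2] at key
  have key2 : D * ((S.card : ℝ) - T.card) ≤ ∑ u ∈ S, R u - ∑ v ∈ T, C v := by
    rw [show (∑ u ∈ S, R u - ∑ v ∈ T, C v) =
      ∑ u ∈ S, ∑ v, f u v - ∑ v ∈ T, ∑ u, f u v from rfl, key]
    exact hst
  have s1 : ∑ u ∈ S, (D - R u) ≤ ∑ v ∈ T, (D - C v) := by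
    rw [Finset.sum_sub_distrib, Finset.sum_sub_distrib, Finset.sum_const, Finset.sum_const,
      nsmul_eq_mul, nsmul_eq_mul]
    nlinarith
  have hSe : S = ∅ := by
    by_contra hne
    have hpos : 0 < ∑ u ∈ S, (D - R u) :=
      Finset.sum_pos (fun u hu => by have := (hSmem u).1 hu; linarith)
        (Finset.nonempty_iff_ne_empty.2 hne)
    have hneg : ∑ v ∈ T, (D - C v) ≤ 0 :=
      Finset.sum_nonpos fun v hv => by have := (hTmem v).1 hv; linarith
    linarith
  have hTe : T = ∅ := by
    by_contra hne
    have hneg : ∑ v ∈ T, (D - C v) < 0 :=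
      Finset.sum_neg (fun v hv => by have := (hTmem v).1 hv; linarith)
        (Finset.nonempty_iff_ne_empty.2 hne)
    rw [hSe] at s1
    simp at s1
    have : ∑ v ∈ T, (D - C v) = (T.card : ℝ) * D - ∑ v ∈ T, C v := by
      rw [Finset.sum_sub_distrib, Finset.sum_const, nsmul_eq_mul]
    linarith
  have hRge : ∀ u, D ≤ R u := fun u => not_lt.1 fun hh => by
    have := (hSmem u).2 hh; rw [hSe] at this; simp at this
  have hCle : ∀ v, C v ≤ D := fun v => not_lt.1 fun hh => by
    have := (hTmem v).2 hh; rw [hTe] at this; simp at this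
  have htot : ∑ u, R u = ∑ v, C v := Finset.sum_comm
  have hz : ∑ u, (R u - D) + ∑ v, (D - C v) = 0 := by
    rw [Finset.sum_sub_distrib, Finset.sum_sub_distrib, htot]; ring
  have hz1 : 0 ≤ ∑ u, (R u - D) := Finset.sum_nonneg fun u _ => by linarith [hRge u]
  have hz2 : 0 ≤ ∑ v, (D - C v) := Finset.sum_nonneg fun v _ => by linarith [hCle v]
  have hReq : ∀ u, R u = D := by
    intro u
    have := (Finset.sum_eq_zero_iff_of_nonneg (fun u _ => by linarith [hRge u])).1
      (show ∑ u, (R u - D) = 0 by linarith) u (Finset.mem_univ u)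
    linarith
  have hCeq : ∀ v, C v = D := by
    intro v
    have := (Finset.sum_eq_zero_iff_of_nonneg (fun v _ => by linarith [hCle v])).1
      (show ∑ v, (D - C v) = 0 by linarith) v (Finset.mem_univ v)
    linarith
  refine ⟨fun u v => (f u v + f v u) / 2, fun u v => by ring, ?_, ?_, ?_⟩
  · intro u v huv
    have b1 := hfK u v
    have b2 := hfK v u
    simp only [huv, hA u v huv, if_true] at b1 b2
    exact ⟨by linarith [b1.1, b2.1], by linarith [b1.2, b2.2]⟩
  · intro u v huv
    have huv' : ¬ A v u := fun hh => huv (hA v u hh)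
    simp [hoff u v huv, hoff v u huv']
  · intro v
    rw [← Finset.sum_div, Finset.sum_add_distrib]
    have e1 : ∑ u, f v u = D := hReq v
    have e2 : ∑ u, f u v = D := hCeq v
    rw [e1, e2]; ring

end weights

end Pool.Agent.Lib.DHC
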