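import Mathlib

/-!
# Greedy choice of connections
-/

set_option autoImplicit false

namespace Pool.Agent.Lib.DHC

open Finset

section greedy

variable {V ι δ : Type*} [Fintype V] [DecidableEq V] [DecidableEq ι] [Fintype δ] [DecidableEq δ]

/-- The number of times the vertex `v` has been chosen by the demands in `P`. -/
private def load (g : δ → V × V) (P : Finset δ) (v : V) : ℕ :=
  (P.filter fun d => (g d).1 = v).card + (P.filter fun d => (g d).2 = v).card

private theorem sum_load (g : δ → V × V) (P : Finset δ) : ∑ v, load g P v = 2 * P.card := by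
  unfold load
  rw [Finset.sum_add_distrib]
  have h1 : ∑ v, (P.filter fun d => (g d).1 = v).card = P.card := by
    rw [← Finset.card_eq_sum_card_fiberwise (f := fun d => (g d).1) (t := univ)
      (fun _ _ => Finset.mem_univ _)]
  have h2 : ∑ v, (P.filter fun d => (g d).2 = v).card = P.card := by
    rw [← Finset.card_eq_sum_card_fiberwise (f := fun d => (g d).2) (t := univ)
      (fun _ _ => Finset.mem_univ _)]
  omega

/-- The edges used by the demand `d`. -/
private def used (x y : δ → V) (g : δ → V × V) (P : Finset δ) : Finset (Sym2 V) :=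
  P.image (fun d => s(x d, (g d).1)) ∪ P.image (fun d => s(y d, (g d).2))

private theorem card_nbr (x y : δ → V) (g : δ → V × V) (P : Finset δ) (hxy : ∀ d, x d ≠ y d)
    (F Lo : ℕ) (hF : ∀ v, ((univ : Finset δ).filter fun d => x d = v ∨ y d = v).card ≤ F)
    (hLo : ∀ v, load g P v ≤ Lo) (z : V) :
    ((univ : Finset V).filter fun u => s(z, u) ∈ used x y g P).card ≤ F + Lo := by
  have hsub : ((univ : Finset V).filter fun u => s(z, u) ∈ used x y g P) ⊆
      (((P.filter fun d => x d = z).image fun d => (g d).1) ∪
        ((P.filter fun d => y d = z).image fun d => (g d).2)) ∪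
      (((P.filter fun d => (g d).1 = z).image fun d => x d) ∪
        ((P.filter fun d => (g d).2 = z).image fun d => y d)) := by
    intro u hu
    simp only [Finset.mem_filter, Finset.mem_univ, true_and, used, Finset.mem_union,
      Finset.mem_image, Sym2.eq_iff] at hu
    simp only [Finset.mem_union, Finset.mem_image, Finset.mem_filter]
    rcases hu with ⟨d, hd, h | h⟩ | ⟨d, hd, h | h⟩
    · exact Or.inl (Or.inl ⟨d, ⟨hd, h.1⟩, h.2⟩)
    · exact Or.inr (Or.inl ⟨d, ⟨hd, h.2⟩, h.1⟩)
    · exact Or.inl (Or.inr ⟨d, ⟨hd, h.1⟩, h.2⟩)
    · exact Or.inr (Or.inr ⟨d, ⟨hd, h.2⟩, h.1⟩)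
  refine (Finset.card_le_card hsub).trans ?_
  refine (Finset.card_union_le _ _).trans ?_
  have h1 : ((((P.filter fun d => x d = z).image fun d => (g d).1) ∪
        ((P.filter fun d => y d = z).image fun d => (g d).2))).card ≤ F := by
    refine (Finset.card_union_le _ _).trans ?_
    have a1 : ((P.filter fun d => x d = z).image fun d => (g d).1).card ≤
      (P.filter fun d => x d = z).card := Finset.card_image_le
    have a2 : ((P.filter fun d => y d = z).image fun d => (g d).2).card ≤
      (P.filter fun d => y d = z).card := Finset.card_image_le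
    have a3 : (P.filter fun d => x d = z).card + (P.filter fun d => y d = z).card =
        ((P.filter fun d => x d = z) ∪ (P.filter fun d => y d = z)).card := by
      rw [Finset.card_union_of_disjoint]
      rw [Finset.disjoint_left]
      intro d hd hd'
      simp only [Finset.mem_filter] at hd hd'
      exact hxy d (hd.2.trans hd'.2.symm)
    have a4 : ((P.filter fun d => x d = z) ∪ (P.filter fun d => y d = z)) ⊆
        (univ : Finset δ).filter fun d => x d = z ∨ y d = z := by
      intro d hd
      simp only [Finset.mem_union, Finset.mem_filter, Finset.mem_univ, true_and] at hd ⊢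
      rcases hd with h | h
      · exact Or.inl h.2
      · exact Or.inr h.2
    have a5 := (Finset.card_le_card a4).trans (hF z)
    omega
  have h2 : ((((P.filter fun d => (g d).1 = z).image fun d => x d) ∪
        ((P.filter fun d => (g d).2 = z).image fun d => y d))).card ≤ Lo := by
    refine (Finset.card_union_le _ _).trans ?_
    have a1 : ((P.filter fun d => (g d).1 = z).image fun d => x d).card ≤
      (P.filter fun d => (g d).1 = z).card := Finset.card_image_le
    have a2 : ((P.filter fun d => (g d).2 = z).image fun d => y d).card ≤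
      (P.filter fun d => (g d).2 = z).card := Finset.card_image_le
    have a3 := hLo z
    unfold load at a3
    omega
  omega

private theorem card_touch (C : Finset (V × V)) (h : ℕ)
    (hh : ∀ v, (C.filter fun p => p.1 = v ∨ p.2 = v).card ≤ h) (N : Finset V) :
    (C.filter fun p => p.1 ∈ N ∨ p.2 ∈ N).card ≤ h * N.card := by
  have hsub : (C.filter fun p => p.1 ∈ N ∨ p.2 ∈ N) ⊆
      N.biUnion fun v => C.filter fun p => p.1 = v ∨ p.2 = v := by
    intro p hp
    simp only [Finset.mem_filter, Finset.mem_biUnion] at hp ⊢
    rcases hp.2 with h1 | h1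
    · exact ⟨p.1, h1, hp.1, Or.inl rfl⟩
    · exact ⟨p.2, h1, hp.1, Or.inr rfl⟩
  refine (Finset.card_le_card hsub).trans ?_
  refine Finset.card_biUnion_le.trans ?_
  calc ∑ v ∈ N, (C.filter fun p => p.1 = v ∨ p.2 = v).card ≤ ∑ _v ∈ N, h :=
        Finset.sum_le_sum fun v _ => hh v
    _ = h * N.card := by rw [Finset.sum_const, smul_eq_mul, mul_comm]

/-- Greedy choice: every demand `d` (in the system `sys d`, with the fixed vertices `x d`, `y d`)
chooses a pair from its candidates `C d`, different pairs within each system, such that all the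
edges joining fixed vertices to chosen vertices are different. -/
theorem greedy (sys : δ → ι) (x y : δ → V) (C : δ → Finset (V × V)) (h s F Lo : ℕ)
    (hxy : ∀ d, x d ≠ y d)
    (hd : ∀ d, ∀ p ∈ C d, p.1 ≠ x d ∧ p.1 ≠ y d ∧ p.2 ≠ x d ∧ p.2 ≠ y d ∧ p.1 ≠ p.2)
    (hh : ∀ d v, ((C d).filter fun p => p.1 = v ∨ p.2 = v).card ≤ h)
    (hs : ∀ i, ((univ : Finset δ).filter fun d => sys d = i).card ≤ s)
    (hF : ∀ v, ((univ : Finset δ).filter fun d => x d = v ∨ y d = v).card ≤ F)
    (hC : ∀ d, Lo * (2 * s + 2 * h * (F + Lo)) + 2 * h * Fintype.card δ < Lo * (C d).card) :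
    ∃ g : δ → V × V, (∀ d, g d ∈ C d) ∧
      (∀ d d', d ≠ d' → sys d = sys d' → g d ≠ g d' ∧ g d ≠ (g d').swap) ∧
      (∀ d d', d ≠ d' → s(x d, (g d).1) ≠ s(x d', (g d').1) ∧
        s(x d, (g d).1) ≠ s(y d', (g d').2) ∧ s(y d, (g d).2) ≠ s(y d', (g d').2)) ∧
      ∀ d, s(x d, (g d).1) ≠ s(y d, (g d).2) := by
  rcases isEmpty_or_nonempty δ with hδ | hδ
  · exact ⟨fun d => (hδ.false d).elim, fun d => (hδ.false d).elim,
      fun d => (hδ.false d).elim, fun d => (hδ.false d).elim, fun d => (hδ.false d).elim⟩
  have hne : ∀ d, (C d).Nonempty := by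
    intro d
    rw [← Finset.card_pos]
    by_contra hc
    have := hC d
    rw [Nat.eq_zero_of_not_pos hc] at this
    omega
  have main : ∀ P : Finset δ, ∃ g : δ → V × V, (∀ d, g d ∈ C d) ∧
      (∀ d ∈ P, ∀ d' ∈ P, d ≠ d' → sys d = sys d' → g d ≠ g d' ∧ g d ≠ (g d').swap) ∧
      (∀ d ∈ P, ∀ d' ∈ P, d ≠ d' → s(x d, (g d).1) ≠ s(x d', (g d').1) ∧
        s(x d, (g d).1) ≠ s(y d', (g d').2) ∧ s(y d, (g d).2) ≠ s(y d', (g d').2)) ∧
      ∀ v, load g P v ≤ Lo := by
    intro P
    induction P using Finset.induction_on with
    | empty =>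
      choose g hg using hne
      exact ⟨g, hg, by simp, by simp, fun v => by simp [load]⟩
    | insert d P hdP ih =>
      obtain ⟨g, hg1, hg2, hg3, hg4⟩ := ih
      -- the bad candidates
      let B1 : Finset (V × V) := (P.filter fun d' => sys d' = sys d).image g ∪
        (P.filter fun d' => sys d' = sys d).image fun d' => (g d').swap
      let N2 : Finset V := univ.filter fun u => s(x d, u) ∈ used x y g P
      let N3 : Finset V := univ.filter fun u => s(y d, u) ∈ used x y g P
      let N4 : Finset V := univ.filter fun u => Lo ≤ load g P u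
      have b1 : B1.card ≤ 2 * s := by
        refine (Finset.card_union_le _ _).trans ?_
        have c1 : ((P.filter fun d' => sys d' = sys d).image g).card ≤ s :=
          Finset.card_image_le.trans ((Finset.card_le_card (by
            intro e he
            simp only [Finset.mem_filter, Finset.mem_univ, true_and] at he ⊢
            exact he.2)).trans (hs (sys d)))
        have c2 : ((P.filter fun d' => sys d' = sys d).image fun d' => (g d').swap).card ≤ s :=
          Finset.card_image_le.trans ((Finset.card_le_card (by
            intro e he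
            simp only [Finset.mem_filter, Finset.mem_univ, true_and] at he ⊢
            exact he.2)).trans (hs (sys d)))
        omega
      have b2 : N2.card ≤ F + Lo := card_nbr x y g P hxy F Lo hF hg4 (x d)
      have b3 : N3.card ≤ F + Lo := card_nbr x y g P hxy F Lo hF hg4 (y d)
      have b4 : Lo * N4.card ≤ 2 * Fintype.card δ := by
        have c1 : Lo * N4.card ≤ ∑ v ∈ N4, load g P v := by
          rw [mul_comm, ← smul_eq_mul, ← Finset.sum_const]
          exact Finset.sum_le_sum fun v hv => (Finset.mem_filter.1 hv).2
        have c2 : ∑ v ∈ N4, load g P v ≤ ∑ v, load g P v :=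
          Finset.sum_le_sum_of_subset (Finset.subset_univ _)
        have c3 := sum_load g P
        have c4 : P.card ≤ Fintype.card δ := Finset.card_le_univ P
        omega
      have t2 := card_touch (C d) h (hh d) N2
      have t3 := card_touch (C d) h (hh d) N3
      have t4 := card_touch (C d) h (hh d) N4
      have hgood : ∃ p ∈ C d, p ∉ B1 ∧ ¬ (p.1 ∈ N2 ∨ p.2 ∈ N2) ∧ ¬ (p.1 ∈ N3 ∨ p.2 ∈ N3) ∧
          ¬ (p.1 ∈ N4 ∨ p.2 ∈ N4) := by
        by_contra hcon
        have hsub : C d ⊆ ((B1 ∪ (C d).filter fun p => p.1 ∈ N2 ∨ p.2 ∈ N2) ∪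
            (C d).filter fun p => p.1 ∈ N3 ∨ p.2 ∈ N3) ∪
            (C d).filter fun p => p.1 ∈ N4 ∨ p.2 ∈ N4 := by
          intro p hp
          simp only [Finset.mem_union, Finset.mem_filter]
          by_cases q1 : p ∈ B1
          · exact Or.inl (Or.inl (Or.inl q1))
          · by_cases q2 : p.1 ∈ N2 ∨ p.2 ∈ N2
            · exact Or.inl (Or.inl (Or.inr ⟨hp, q2⟩))
            · by_cases q3 : p.1 ∈ N3 ∨ p.2 ∈ N3
              · exact Or.inl (Or.inr ⟨hp, q3⟩)
              · refine Or.inr ⟨hp, ?_⟩
                by_contra q4
                exact hcon ⟨p, hp, q1, q2, q3, q4⟩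
        have hcard := Finset.card_le_card hsub
        have u1 := Finset.card_union_le ((B1 ∪ (C d).filter fun p => p.1 ∈ N2 ∨ p.2 ∈ N2) ∪
            (C d).filter fun p => p.1 ∈ N3 ∨ p.2 ∈ N3)
            ((C d).filter fun p => p.1 ∈ N4 ∨ p.2 ∈ N4)
        have u2 := Finset.card_union_le (B1 ∪ (C d).filter fun p => p.1 ∈ N2 ∨ p.2 ∈ N2)
            ((C d).filter fun p => p.1 ∈ N3 ∨ p.2 ∈ N3)
        have u3 := Finset.card_union_le B1 ((C d).filter fun p => p.1 ∈ N2 ∨ p.2 ∈ N2)
        have hfin : (C d).card ≤ 2 * s + h * (F + Lo) + h * (F + Lo) + h * N4.card := by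
          have v2 : h * N2.card ≤ h * (F + Lo) := Nat.mul_le_mul_left _ b2
          have v3 : h * N3.card ≤ h * (F + Lo) := Nat.mul_le_mul_left _ b3
          omega
        have hmul : Lo * (C d).card ≤ Lo * (2 * s + h * (F + Lo) + h * (F + Lo)) +
            h * (Lo * N4.card) := by
          calc Lo * (C d).card ≤ Lo * (2 * s + h * (F + Lo) + h * (F + Lo) + h * N4.card) :=
                Nat.mul_le_mul_left _ hfin
            _ = Lo * (2 * s + h * (F + Lo) + h * (F + Lo)) + h * (Lo * N4.card) := by ring
        have hv4 : h * (Lo * N4.card) ≤ h * (2 * Fintype.card δ) := Nat.mul_le_mul_left _ b4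
        have := hC d
        have e1 : Lo * (2 * s + 2 * h * (F + Lo)) + 2 * h * Fintype.card δ =
          Lo * (2 * s + h * (F + Lo) + h * (F + Lo)) + h * (2 * Fintype.card δ) := by ring
        omega
      obtain ⟨p, hpC, hp1, hp2, hp3, hp4⟩ := hgood
      push Not at hp2 hp3 hp4
      have hpd := hd d p hpC
      refine ⟨Function.update g d p, ?_, ?_, ?_, ?_⟩
      · intro e
        by_cases he : e = d
        · subst he; simpa using hpC
        · rw [Function.update_of_ne he]; exact hg1 e
      · have hnew : ∀ d' ∈ P, sys d' = sys d → p ≠ g d' ∧ p ≠ (g d').swap := by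
          intro d' hd' hsys
          constructor
          · rintro rfl
            exact hp1 (Finset.mem_union_left _ (Finset.mem_image_of_mem _
              (Finset.mem_filter.2 ⟨hd', hsys⟩)))
          · intro hh'
            apply hp1
            apply Finset.mem_union_right
            rw [Finset.mem_image]
            exact ⟨d', Finset.mem_filter.2 ⟨hd', hsys⟩, hh'.symm⟩
        have hne' : ∀ e ∈ P, e ≠ d := fun e he hh' => hdP (by rw [← hh']; exact he)
        intro e he e' he' hee' hsys
        rcases Finset.mem_insert.1 he with h1 | h1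
        · rcases Finset.mem_insert.1 he' with h2 | h2
          · exact absurd (h1.trans h2.symm) hee'
          · rw [h1, Function.update_self, Function.update_of_ne (hne' e' h2)]
            exact hnew e' h2 (by rw [← hsys, h1])
        · rcases Finset.mem_insert.1 he' with h2 | h2
          · rw [h2, Function.update_self, Function.update_of_ne (hne' e h1)]
            obtain ⟨z1, z2⟩ := hnew e h1 (by rw [hsys, h2])
            refine ⟨fun hh' => z1 hh'.symm, fun hh' => z2 ?_⟩
            rw [hh', Prod.swap_swap]
          · rw [Function.update_of_ne (hne' e h1), Function.update_of_ne (hne' e' h2)]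
            exact hg2 e h1 e' h2 hee' hsys
      · -- the new edges are new
        have hnx : s(x d, p.1) ∉ used x y g P := by
          intro hh'
          exact hp2.1 (Finset.mem_filter.2 ⟨Finset.mem_univ _, hh'⟩)
        have hny : s(y d, p.2) ∉ used x y g P := by
          intro hh'
          exact hp3.2 (Finset.mem_filter.2 ⟨Finset.mem_univ _, hh'⟩)
        have hux : ∀ d' ∈ P, s(x d', (g d').1) ∈ used x y g P := fun d' hd' =>
          Finset.mem_union_left _ (Finset.mem_image_of_mem (fun d => s(x d, (g d).1)) hd')
        have huy : ∀ d' ∈ P, s(y d', (g d').2) ∈ used x y g P := fun d' hd' =>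
          Finset.mem_union_right _ (Finset.mem_image_of_mem (fun d => s(y d, (g d).2)) hd')
        have hne' : ∀ e ∈ P, e ≠ d := fun e he hh' => hdP (by rw [← hh']; exact he)
        intro e he e' he' hee'
        rcases Finset.mem_insert.1 he with h1 | h1
        · rcases Finset.mem_insert.1 he' with h2 | h2
          · exact absurd (h1.trans h2.symm) hee'
          · rw [h1, Function.update_self, Function.update_of_ne (hne' e' h2)]
            exact ⟨fun hh' => hnx (hh' ▸ hux e' h2), fun hh' => hnx (hh' ▸ huy e' h2),
              fun hh' => hny (hh' ▸ huy e' h2)⟩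
        · rcases Finset.mem_insert.1 he' with h2 | h2
          · rw [h2, Function.update_self, Function.update_of_ne (hne' e h1)]
            exact ⟨fun hh' => hnx (hh' ▸ hux e h1), fun hh' => hny (hh' ▸ hux e h1),
              fun hh' => hny (hh' ▸ huy e h1)⟩
          · rw [Function.update_of_ne (hne' e h1), Function.update_of_ne (hne' e' h2)]
            exact hg3 e h1 e' h2 hee'
      · intro v
        have hl : load (Function.update g d p) (insert d P) v =
            load g P v + ((if p.1 = v then 1 else 0) + if p.2 = v then 1 else 0) := by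
          unfold load
          rw [Finset.filter_insert, Finset.filter_insert]
          have f1 : (P.filter fun e => (Function.update g d p e).1 = v) =
              P.filter fun e => (g e).1 = v :=
            Finset.filter_congr fun e he => by
              rw [Function.update_of_ne (fun hh' => hdP (by rw [← hh']; exact he))]
          have f2 : (P.filter fun e => (Function.update g d p e).2 = v) =
              P.filter fun e => (g e).2 = v :=
            Finset.filter_congr fun e he => by
              rw [Function.update_of_ne (fun hh' => hdP (by rw [← hh']; exact he))]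
          rw [f1, f2]
          simp only [Function.update_self]
          have g1 : d ∉ P.filter fun e => (g e).1 = v := fun hh' => hdP (Finset.mem_filter.1 hh').1
          have g2 : d ∉ P.filter fun e => (g e).2 = v := fun hh' => hdP (Finset.mem_filter.1 hh').1
          split_ifs <;> simp [Finset.card_insert_of_notMem, g1, g2] <;> omega
        rw [hl]
        by_cases h1 : p.1 = v
        · have h2 : p.2 ≠ v := fun hh' => hpd.2.2.2.2 (h1.trans hh'.symm)
          have h3 : ¬ Lo ≤ load g P v := fun hh' =>
            hp4.1 (by rw [h1]; exact Finset.mem_filter.2 ⟨Finset.mem_univ _, hh'⟩)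
          rw [if_pos h1, if_neg h2]
          omega
        · by_cases h2 : p.2 = v
          · have h3 : ¬ Lo ≤ load g P v := fun hh' =>
              hp4.2 (by rw [h2]; exact Finset.mem_filter.2 ⟨Finset.mem_univ _, hh'⟩)
            rw [if_neg h1, if_pos h2]
            omega
          · rw [if_neg h1, if_neg h2]
            have := hg4 v
            omega
  obtain ⟨g, hg1, hg2, hg3, -⟩ := main univ
  refine ⟨g, hg1, fun d d' => hg2 d (Finset.mem_univ _) d' (Finset.mem_univ _),
    fun d d' => hg3 d (Finset.mem_univ _) d' (Finset.mem_univ _), fun d hh' => ?_⟩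
  have := hd d (g d) (hg1 d)
  rw [Sym2.eq_iff] at hh'
  rcases hh' with h1 | h1
  · exact hxy d h1.1
  · exact this.2.2.1 h1.1.symm

end greedy

end Pool.Agent.Lib.DHC
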